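import Pool.Agent.H50.TW.TRatio

/-!
# Two is the best ratio for vertex cover which can be guaranteed by short threshold proofs

The definitions used in the statement are in `Pool/Agent/H50/CP/Defs.lean`; `pmGraphs n` is the
class of the graphs on `Fin n ⊕ Fin n` which contain the perfect matching of the edges `{i, i}`.
-/

open scoped Classical
open Finset H630VC H50CP

namespace Pool.Agent.Results.MP_cff830_lc.ShortProofs

theorem result :
    -- (1) on the graphs with a given maximal matching `φ` of `n` edges no function `A`, computable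
    -- or not, has a short proof that it approximates the vertex cover number within a factor
    -- `2 - n ^ (η - 1/2)`
    (∀ η : ℝ, 0 < η → η ≤ 1 / 2 → ∃ N : ℕ, ∀ n : ℕ, N ≤ n →
      ∀ (V : Type) (φ : Fin n ⊕ Fin n ↪ V) (w D : ℕ), 1 ≤ w →
        ((w * D : ℕ) : ℝ) ≤ (n : ℝ) ^ (η / 8) → ∀ A, UpperBound (matched φ) A →
        ∀ ρ : ℝ, ρ ≤ 2 - (n : ℝ) ^ (η - 1 / 2) → ∀ l, ProvesRatio (matched φ) w D A ρ l →
          (2 : ℝ) ^ ((n : ℝ) ^ (η / 8)) ≤ D * l.length) ∧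
    -- (2) the ratio `2` has a short proof on these graphs, and the ratio `2 - 1 / n` if the
    -- matching is perfect
    (∀ (V : Type) (n : ℕ) (φ : Fin n ⊕ Fin n ↪ V),
      (UpperBound (matched φ) (fun _ => 2 * (n : ℝ)) ∧
        ∃ l, ProvesRatio (matched φ) 2 1 (fun _ => 2 * (n : ℝ)) 2 l ∧ l.length = n + 2) ∧
      (Function.Surjective φ → 1 ≤ n → UpperBound (matched φ) (fun _ => 2 * (n : ℝ) - 1) ∧
        ∃ l, ProvesRatio (matched φ) 2 1 (fun _ => 2 * (n : ℝ) - 1) (2 - 1 / n) l ∧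
          l.length = n + 2)) ∧
    -- (3) on all graphs, the ratio `n ^ (1/2 - η)` has no short proof
    (∀ η : ℝ, 0 < η → η ≤ 1 / 2 → ∃ N : ℕ, ∀ n : ℕ, N ≤ n → ∀ w D : ℕ, 1 ≤ w →
      ((w * D : ℕ) : ℝ) ≤ (n : ℝ) ^ (η / 12) →
        ∀ A, UpperBound (Set.univ : Set (SimpleGraph (Fin n))) A →
        ∀ ρ : ℝ, ρ ≤ (n : ℝ) ^ (1 / 2 - η) → ∀ l, ProvesRatio Set.univ w D A ρ l →
          (2 : ℝ) ^ ((n : ℝ) ^ (η / 16)) ≤ D * l.length) ∧
    -- (4) on all graphs, the ratio `16 √(n log n)` has a short proof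
    (∀ n : ℕ, 2 ≤ n → ∃ A, UpperBound (Set.univ : Set (SimpleGraph (Fin n))) A ∧
      ∃ l, ProvesRatio Set.univ 2 1 A (16 * Real.sqrt (n * Real.log n)) l ∧
        l.length ≤ n ^ 12 + 1) ∧
    -- (5) without restriction of the length, the ratio `1` has a proof on every class of graphs
    (∀ (V : Type) [Fintype V] (𝓖 : Set (SimpleGraph V)),
      ∃ A, UpperBound 𝓖 A ∧ ∃ l, ProvesRatio 𝓖 2 1 A 1 l) ∧
    -- (6) the lower bounds hold also if a partition of the vertices into `k` cliques is known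
    (∀ η : ℝ, 0 < η → ∃ N : ℕ, ∀ n t k w D : ℕ, N ≤ n → t ≤ n → k ≤ n → 1 ≤ w → 1 ≤ D →
      ((n : ℝ) ^ (1 + η) * ((w * D : ℕ) : ℝ) ^ 3 ≤ t * Real.sqrt k →
        ∀ l, Refutes (Set.univ : Set (SimpleGraph (Fin n))) t k w D l →
          (2 : ℝ) ^ ((n : ℝ) ^ (η / 4)) ≤ D * l.length) ∧
      ((n : ℝ) ^ (1 + η) * ((w * D : ℕ) : ℝ) ^ 7 ≤ t * k →
        ∀ l, Refutes (pmGraphs n) (n + t) k w D l →
          (2 : ℝ) ^ ((n : ℝ) ^ (η / 8)) ≤ D * l.length)) ∧
    -- (7) and the first condition in (6) is sharp up to `n ^ o(1)`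
    (∀ n t k : ℕ, 1 ≤ k → 8 * k ≤ n → 96 * ((t : ℝ) + 1) * Real.sqrt k * Real.log n ≤ n →
      ∃ l, Refutes (Set.univ : Set (SimpleGraph (Fin n))) t k 2 1 l ∧ l.length ≤ n ^ 6) ∧
    -- (8) cutting planes refutations are a special case
    (∀ (V : Type) [Fintype V] (𝓖 : Set (SimpleGraph V)) (M : Set (V × V)) (t k : ℕ),
      (∀ G ∈ 𝓖, ∀ e ∈ M, G.Adj e.1 e.2) → ∀ l, CPRefutes M t k l →
        ∃ l', Refutes 𝓖 t k 2 1 l' ∧ l'.length = l.length) ∧
    -- (9) so that they have exponential length for ratios `2 - n ^ (η - 1/2)`, but not for `2`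
    (∀ η : ℝ, 0 < η → η ≤ 1 / 2 → ∃ N : ℕ, ∀ n : ℕ, N ≤ n → ∃ t k : ℕ,
      (2 - (n : ℝ) ^ (η - 1 / 2)) * t < 2 * n - k ∧
      ∀ l : List (Ineq (Fin n ⊕ Fin n) k), CPRefutes (matching n) t k l →
        (2 : ℝ) ^ ((n : ℝ) ^ (η / 8)) ≤ l.length) ∧
    (∀ n t k : ℕ, t < n → ∃ l : List (Ineq (Fin n ⊕ Fin n) k), CPRefutes (matching n) t k l ∧
      l.length = 4 * n + 1) := by
  refine ⟨H50TW.ratio_matched, fun V n φ => ⟨ratio_two_matched φ, ratio_perfect φ⟩, ratio_all,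
    ratio_root, fun V _ 𝓖 => ratio_one 𝓖, ?_, upper,
    fun V _ 𝓖 M t k hM l hl => refutes_of_cuttingPlanes hM hl, ?_, cp_upper⟩
  · intro η hη
    obtain ⟨N1, hN1⟩ := asymp η hη
    obtain ⟨N2, hN2⟩ := H50TW.asymp η hη
    refine ⟨max N1 N2, fun n t k w D hn ht hk hw hD => ⟨fun h => ?_, fun h => ?_⟩⟩
    · exact (hN1 n t k w D ((le_max_left _ _).trans hn) ht hk hw hD h).1
    · exact hN2 n t k w D ((le_max_right _ _).trans hn) ht hk hw hD h
  · intro η hη hη2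
    obtain ⟨N1, hN1⟩ := H50TW.asymp η hη
    obtain ⟨N2, hN2⟩ := H50TW.ratio_params_tw η hη hη2
    obtain ⟨N3, hN3⟩ := eventually_rpow 2 (η / 8) (by positivity)
    refine ⟨max (max N1 N2) (max N3 1), fun n hn => ?_⟩
    have hn1 : N1 ≤ n := ((le_max_left _ _).trans (le_max_left _ _)).trans hn
    have hn2 : N2 ≤ n := ((le_max_right _ _).trans (le_max_left _ _)).trans hn
    have hn3 : N3 ≤ n := ((le_max_left _ _).trans (le_max_right _ _)).trans hn
    have hn4 : 1 ≤ n := ((le_max_right _ _).trans (le_max_right _ _)).trans hn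
    obtain ⟨t, k, ht, hk, h1, h2⟩ := hN2 n hn2
    have h3 := hN3 n hn3
    refine ⟨n + t, k, h1, fun l hl => ?_⟩
    obtain ⟨l', g1, g2⟩ := refutes_of_cuttingPlanes (𝓖 := pmGraphs n) (by
      rintro G hG e ⟨i, rfl⟩
      exact hG i) hl
    have h4 := H50TW.rpow_seven (a := 1 + η) hn4
      (show ((2 * 1 : ℕ) : ℝ) ≤ (n : ℝ) ^ (η / 8) by exact_mod_cast h3)
    have h5 : 1 + η + 7 * (η / 8) = 1 + 15 / 8 * η := by ring
    rw [h5] at h4
    have h6 := hN1 n t k 2 1 hn1 ht hk (by norm_num) le_rfl (h4.trans h2) l' g1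
    rw [g2] at h6
    simpa using h6

end Pool.Agent.Results.MP_cff830_lc.ShortProofs
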