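import Pool.Agent.H698.UV.Up

set_option autoImplicit false

/-!
# Vertex cover for circuits that compute with unknown inputs

The circuits read, for each pair of vertices of a graph (all weights are one), whether it is known
to be an edge, known not to be an edge or unknown.  The gates have values in an ordered set `D` of
states of knowledge and apply arbitrary functions `D → D → D` that respect the order (more knowledge
about the arguments gives more knowledge about the value); `D` is any partially ordered set in which
the elements below a given one form a chain of real numbers.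

* If `D` is the flat order with the values `unknown`, `known true` and `known false` then these are
  the hazard-free (Kleene, three-valued) circuits with arbitrary binary gates, each evaluated by its
  most precise extension; negations are allowed.
* If `D` is the flat order over an arbitrary set `A` (vertices, words, numbers, ...) the gates may
  apply arbitrary functions `A → A → A` as soon as the arguments are known.
* If `D = ℝ` then these are the monotone real circuits.

The gap problem: raise the alarm whenever the edges of a graph are known all of whose vertex covers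
have at least `K` vertices (further edges cannot make the covers smaller), and do not raise it on
the completely known graphs with a vertex cover of at most `k` vertices.  For all models at once:
randomised circuits need exponential size

* on the graphs with a perfect matching on `2n` vertices for `k = (1 + ε) n`, `K = (2 - ε) n`, for
  every `ε > 0`, while the ratio two is free there;
* on all graphs with `n` vertices for `k = n ^ (1/2 + η) / 4`, `K = 7 n / 8`, a gap of
  `n ^ (1/2 - η)`, while `n ^ 12` gates are enough for gaps above `16 (n log n) ^ (1/2)`.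

Proof. Feed the circuit with the graphs whose non-edges are declared unknown. All gate values are
then below the value for the complete graph, so that they lie in a chain, in which the gate is
simulated by one monotone real gate; no gates are lost. Then the averaging lemma `engine2` for
monotone real circuits of `Pool.Graph.R_seed8.H630VC` applies.
-/

namespace Pool.Agent.Results.MP_cff830_lc.UnknownInputCircuits

open Pool.Agent.H698.HF Pool.Agent.H698.UV
open H630VC (IsCover pmGraphs)

/-- (1) Let `0 < ε ≤ 1` and `n` large. For every tree-like order `D` every randomised circuit over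
`D` that solves the gap problem with `k = (1 + ε) n`, `K = (2 - ε) n` for the graphs on `2n` vertices
that contain a fixed perfect matching has a member with at least `2 ^ (n ^ (1/7)) - 1` gates.
(2) Their vertex covers have at least `n` vertices, and `2n` are enough. (3) Let `0 < η ≤ 1/2` and
`n` large, `k ≥ n ^ (1/2 + η) / 4` and `K ≤ 7 n / 8`. For every tree-like order `D` every randomised
circuit over `D` that solves the gap problem for all graphs with `n` vertices has a member with at
least `2 ^ (n ^ (η/4)) - 1` gates. (4) For `n ≥ 2` a circuit over the real numbers with at most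
`n ^ 12` gates solves it for all `k ≥ 0` and `K > 16 (n log n) ^ (1/2) k`. (5) For all `k < K` some
function that respects the knowledge solves the gap problem. (6) The real numbers and all flat
orders are tree-like, and the most precise extension of a function to a flat order is nondecreasing,
so that it is allowed at the gates. -/
theorem result :
    (∀ ε : ℝ, 0 < ε → ε ≤ 1 → ∃ N : ℕ, ∀ n : ℕ, N ≤ n →
      ∀ (D : Type) [PartialOrder D], TreeLike D →
      ∀ (Ω : Type) [Fintype Ω] [Nonempty Ω]
        (l : Ω → List (Know ((Fin n ⊕ Fin n) × (Fin n ⊕ Fin n)) → D)),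
      (∀ ω, Circ (l ω)) → SolvesVC ((1 + ε) * n) ((2 - ε) * n) (pmGraphs n) l →
      ∃ ω, (2 : ℝ) ^ ((n : ℝ) ^ (1 / 7 : ℝ)) ≤ (l ω).length + 1) ∧
    (∀ (n : ℕ), ∀ G ∈ pmGraphs n,
      (∀ C : Finset (Fin n ⊕ Fin n), IsCover G C → n ≤ C.card) ∧
      ∃ C : Finset (Fin n ⊕ Fin n), IsCover G C ∧ C.card = 2 * n) ∧
    (∀ η : ℝ, 0 < η → η ≤ 1 / 2 → ∃ N : ℕ, ∀ n : ℕ, N ≤ n → ∀ k K : ℝ,
      (n : ℝ) ^ (1 / 2 + η) / 4 ≤ k → K ≤ 7 / 8 * n →
      ∀ (D : Type) [PartialOrder D], TreeLike D →
      ∀ (Ω : Type) [Fintype Ω] [Nonempty Ω] (l : Ω → List (Know (Fin n × Fin n) → D)),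
      (∀ ω, Circ (l ω)) → SolvesVC k K Set.univ l →
      ∃ ω, (2 : ℝ) ^ ((n : ℝ) ^ (η / 4)) ≤ (l ω).length + 1) ∧
    (∀ n : ℕ, 2 ≤ n → ∃ l : List (Know (Fin n × Fin n) → ℝ), Circ l ∧ l.length ≤ n ^ 12 ∧
      ∀ k K : ℝ, 0 ≤ k → 16 * Real.sqrt (n * Real.log n) * k < K →
        SolvesVC k K Set.univ (fun _ : Unit => l)) ∧
    (∀ (V : Type) [Fintype V] (k K : ℝ), k < K →
      ∃ F : Know (V × V) → ℝ, (∀ P Q, Le P Q → F P ≤ F Q) ∧ ∀ G : SimpleGraph V,
        ((∀ C : Finset V, IsCover G C → K ≤ C.card) → F (truths (adjb G)) = 1) ∧
        ((∃ C : Finset V, IsCover G C ∧ (C.card : ℝ) ≤ k) → F (full (adjb G)) = 0)) ∧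
    TreeLike ℝ ∧ ∀ A : Type, TreeLike (Flat A) ∧ (Nonempty A → ∀ (f : A → A → A)
      (x x' y y' : Flat A), x ≤ x' → y ≤ y' → Flat.ext f x y ≤ Flat.ext f x' y') :=
  ⟨fun ε h0 h1 => lower_pm ε h0 h1, fun n G hG => pm_range n G hG,
    fun η h0 h1 => lower_all η h0 h1, fun n hn => upper_all n hn,
    fun V _ k K h => exists_ideal k K h, treeLike_real,
    fun A => ⟨Flat.treeLike, fun hA f x x' y y' hx hy => Flat.ext_mono' f x x' y y' hx hy⟩⟩

end Pool.Agent.Results.MP_cff830_lc.UnknownInputCircuits
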