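import Pool.Agent.H698.UF.Vc
import Pool.Agent.H660.UT.Pref

/-!
# Vertex cover below ratio two: circuits that compute with unknown inputs and make few tests of
unknownness

The circuits read, for each pair of vertices of a graph (all weights are one), whether it is known
to be an edge, known not to be an edge or unknown. The gates have values in an ordered set `D` of
states of knowledge. Most gates apply arbitrary functions `D → D → D` that respect the order: more
knowledge about the arguments gives more knowledge about the value. In addition there are `t` free
gates, which apply arbitrary functions `D → D`; they may test whether a value is unknown, replace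
unknown by a default value, or forget something (`FCirc t`). `D` is any partially ordered set in which
the elements below a given one form a chain with at most `H + 1` elements (`Height D H`).

* `H = 1`: `D` is the flat order over any set `A`, for instance the set of all numbers or words. The
  gates apply ARBITRARY operations `A → A → A` as soon as the arguments are known. For `A = Bool` these
  are the hazard-free (three-valued) circuits with arbitrary binary gates, negations included, and
  with `t` gates which detect hazards.
* `H = w`: `D` is the set of the words of `w` bits of which some leading bits are known (`Pref w`).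

The gap problem (`SolvesG k K 𝓖`): the edges of a graph are given and nothing is known about the other
pairs; raise the alarm if all vertex covers have at least `K` vertices, and do not raise it if some
vertex cover has at most `k` vertices.

(1) Let `η > 0` and `0 ≤ α < 1/2`. For all large `n`, if `2 (H + 1) ^ t ≤ n ^ α`, randomised circuits
for the gap `((1 + η) n, (2 - η) n)` on the graphs with `2 n` vertices which contain a fixed perfect
matching (their covers have between `n` and `2 n` vertices, so the ratio two is free) have at least
`2 ^ (n ^ ((1 - 2 α) / 7)) / 2` gates. For `H = 1` this allows `α log₂ n - 1` free gates.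

(2) Let `0 < η ≤ 1/2`. For all large `n` and `ρ ≥ 1` with `2 ρ (H + 1) ^ t ≤ n ^ (1/2 - η)`, randomised
circuits for the gap `(η n / ρ, (1 - η) n)` on all graphs with `n` vertices have at least
`2 ^ (n ^ (η / 4)) / 2` gates.

Proof. A free gate is replaced by `H` comparisons, which determine the rank of its argument in a
chain; this determines the result, since the value of every gate is, for given results of the free
gates before, below its value for the complete graph. On each branch every other gate is simulated
by one nondecreasing real function. This gives a program of width `2 (H + 1) ^ t` in the sense of the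
library result `FewNegationsGap`, which applies.
-/

set_option autoImplicit false

namespace Pool.Agent.Results.MP_cff830_lc.UnknownInputTests

open Pool.Agent.H698.HF Pool.Agent.H698.UF
open Pool.Agent.H660.UT (Height Pref height_flat height_pref)
open H630VC (pmGraphs)

theorem result :
    -- (1) graphs with a perfect matching
    (∀ η : ℝ, 0 < η → ∀ α : ℝ, 0 ≤ α → α < 1 / 2 → ∃ N : ℕ, ∀ n : ℕ, N ≤ n →
      ∀ (D : Type) [PartialOrder D] (H : ℕ), Height D H →
      ∀ t : ℕ, 2 * ((H : ℝ) + 1) ^ t ≤ (n : ℝ) ^ α →
      ∀ (Ω : Type) [Fintype Ω] [Nonempty Ω]
        (l : Ω → List (Know ((Fin n ⊕ Fin n) × (Fin n ⊕ Fin n)) → D)),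
      (∀ ω, ∃ t' ≤ t, FCirc t' (l ω)) → SolvesG ((1 + η) * n) ((2 - η) * n) (pmGraphs n) l →
      ∃ ω, (2 : ℝ) ^ ((n : ℝ) ^ ((1 - 2 * α) / 7)) ≤ 2 * (l ω).length) ∧
    -- (2) all graphs
    (∀ η : ℝ, 0 < η → η ≤ 1 / 2 → ∃ N : ℕ, ∀ n : ℕ, N ≤ n → ∀ ρ : ℝ, 1 ≤ ρ →
      ∀ (D : Type) [PartialOrder D] (H : ℕ), Height D H →
      ∀ t : ℕ, ρ * (2 * ((H : ℝ) + 1) ^ t) ≤ (n : ℝ) ^ (1 / 2 - η) →
      ∀ (Ω : Type) [Fintype Ω] [Nonempty Ω] (l : Ω → List (Know (Fin n × Fin n) → D)),
      (∀ ω, ∃ t' ≤ t, FCirc t' (l ω)) → SolvesG (η * n / ρ) ((1 - η) * n) Set.univ l →
      ∃ ω, (2 : ℝ) ^ ((n : ℝ) ^ (η / 4)) ≤ 2 * (l ω).length) ∧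
    -- (3) the orders
    (∀ A : Type, Height (Flat A) 1 ∧ (Nonempty A → ∀ (f : A → A → A)
      (x x' y y' : Flat A), x ≤ x' → y ≤ y' → Flat.ext f x y ≤ Flat.ext f x' y')) ∧
    ∀ w : ℕ, Height (Pref w) w :=
  ⟨fun η hη α hα hα2 => lower_pmF η hη α hα hα2, fun η hη hη2 => lower_allF η hη hη2,
    fun A => ⟨height_flat A, fun hA f x x' y y' hx hy => Flat.ext_mono' f x x' y y' hx hy⟩,
    height_pref⟩

end Pool.Agent.Results.MP_cff830_lc.UnknownInputTests
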